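import Pool.Agent.Run7.h465.UP.Iface

/-!
Pieces HONE, TWP, PGRP, DLIM of the project UP.
-/

set_option autoImplicit false

namespace Run7.h160.UP

open Run7.h465.UP

/-- **HONE**: vanishing of `H¹`. -/
theorem HONE : S_HONE := by
  classical
  intro p A Q _ _ θ e₁ e₂ h1 h2 h12
  set h : A → Q → ZMod p := fun a d => (e₁ a).fst d - (e₂ a).fst d with hh
  have hmul : ∀ a b d, h (a * b) d = h a d + h b ((θ a)⁻¹ * d) := by
    intro a b d
    simp only [hh, map_mul, tw_mul_fst, h1, h2]
    ring
  have hker : ∀ a, θ a = 1 → ∀ d, h a d = 0 := by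
    intro a ha d
    simp only [hh, h12 a ha, sub_self]
  -- representatives
  let s : Setoid Q := QuotientGroup.rightRel θ.range
  set r : Q → Q := fun d => Quotient.out (Quotient.mk s d) with hr
  have hr1 : ∀ d, d * (r d)⁻¹ ∈ θ.range := by
    intro d
    have h3 : s (r d) d := Quotient.mk_out d
    exact (QuotientGroup.rightRel_apply).1 h3
  have hr2 : ∀ b d, r (θ b * d) = r d := by
    intro b d
    have h3 : (Quotient.mk s (θ b * d)) = Quotient.mk s d := by
      apply Quotient.sound
      refine (QuotientGroup.rightRel_apply).2 ?_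
      rw [mul_inv_rev, ← mul_assoc, mul_inv_cancel, one_mul]
      exact ⟨b⁻¹, map_inv _ _⟩
    simp only [hr, h3]
  choose t ht using hr1
  set m : Q → ZMod p := fun d => h (t d) d with hm
  have key : ∀ a d, h a d = m d - m ((θ a)⁻¹ * d) := by
    intro a d
    set d' := (θ a)⁻¹ * d with hd'
    have hrd : r d' = r d := by
      have := hr2 a⁻¹ d
      rwa [map_inv] at this
    have hn : θ ((t d)⁻¹ * (a * t d')) = 1 := by
      rw [map_mul, map_mul, map_inv, ht, ht, hrd, hd']
      group
    have e1 : h (a * t d') d = h a d + m d' := hmul a (t d') d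
    have e2 : h (a * t d') d = m d := by
      have e3 : a * t d' = t d * ((t d)⁻¹ * (a * t d')) := by group
      rw [e3, hmul, hker _ hn, add_zero]
    rw [e2] at e1
    rw [e1]
    ring
  refine ⟨⟨m, 1⟩, rfl, fun a => ?_⟩
  apply Tw.ext
  · funext d
    have hk := key a d
    simp only [tw_mul_fst, tw_mul_snd, tw_inv_fst, inv_one, one_mul, h2]
    simp only [hh] at hk
    rw [← sub_eq_zero]
    have : (e₁ a).fst d = (e₂ a).fst d + (m d - m ((θ a)⁻¹ * d)) := by rw [← hk]; ring
    rw [this]
    ring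
  · simp only [tw_mul_snd, tw_inv_snd, inv_one, one_mul, mul_one, h1, h2]

theorem tw_pow {p : ℕ} {Q : Type} [Group Q] (y : Tw p Q) (hy : y.snd = 1) (n : ℕ) :
    (y ^ n).snd = 1 ∧ ∀ d, (y ^ n).fst d = n * y.fst d := by
  induction n with
  | zero => simp
  | succ n ih =>
    rw [pow_succ]
    refine ⟨by rw [tw_mul_snd, ih.1, hy, one_mul], fun d => ?_⟩
    rw [tw_mul_fst, ih.1, ih.2, inv_one, one_mul]
    push_cast
    ring

theorem tw_snd_pow {p : ℕ} {Q : Type} [Group Q] (y : Tw p Q) (n : ℕ) :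
    (y ^ n).snd = y.snd ^ n := by
  have := map_pow (twSnd p Q) y n
  exact this

/-- **TWP** -/
theorem TWP : S_TWP := by
  intro p _ Q _ _ hQ x
  obtain ⟨k, hk⟩ := hQ x.snd
  refine ⟨k + 1, ?_⟩
  rw [pow_succ, pow_mul]
  have h1 : (x ^ p ^ k).snd = 1 := by rw [tw_snd_pow, hk]
  obtain ⟨h2, h3⟩ := tw_pow (x ^ p ^ k) h1 p
  apply Tw.ext
  · funext d
    rw [h3, CharP.cast_eq_zero, zero_mul]
    rfl
  · rw [h2]
    rfl

/-- **PGRP** -/
theorem PGRP : S_PGRP := by
  intro p G _ _ o x
  by_contra hx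
  push Not at hx
  have h1 : ∀ k : ℕ, ¬ o.le (x ^ p ^ k) (x ^ p ^ (k + 1)) := by
    intro k
    rw [pow_succ, pow_mul]
    exact o.pow _ (hx k)
  have h2 : ∀ k l : ℕ, k + 1 ≤ l → o.le (x ^ p ^ l) (x ^ p ^ (k + 1)) := by
    intro k l hkl
    induction l, hkl using Nat.le_induction with
    | base => exact o.refl _
    | succ n _ ih => exact o.trans _ _ _ ((o.total _ _).resolve_right (h1 n)) ih
  have h3 : Function.Injective fun k : ℕ => x ^ p ^ k := by
    have h4 : ∀ k l : ℕ, k < l → x ^ p ^ k ≠ x ^ p ^ l := by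
      intro k l hkl he
      have := h2 k l hkl
      rw [← he] at this
      exact h1 k this
    intro k l he
    rcases lt_trichotomy k l with h | h | h
    · exact absurd he (h4 k l h)
    · exact h
    · exact absurd he.symm (h4 l k h)
  exact not_injective_infinite_finite _ h3

end Run7.h160.UP
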