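import Pool.Agent.Run7.h465.UP.Iface

/-!
Piece DLIM of the project UP: direct limit of a sequence of groups.
-/

set_option autoImplicit false

namespace Run7.h160.UP

open Run7.h465.UP

section
variable (S : ℕ → Type) [∀ n, Group (S n)] (j : ∀ n, S n →* S (n + 1))

/-- the transition maps -/
def tr (n m : ℕ) (h : n ≤ m) : S n →* S m where
  toFun x := Nat.leRecOn h (fun {k} (y : S k) => j k y) x
  map_one' := by
    induction m, h using Nat.le_induction with
    | base => exact Nat.leRecOn_self _
    | succ m h ih => rw [Nat.leRecOn_succ h, ih, map_one]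
  map_mul' x y := by
    induction m, h using Nat.le_induction with
    | base => simp only [Nat.leRecOn_self]
    | succ m h ih => rw [Nat.leRecOn_succ h, Nat.leRecOn_succ h, Nat.leRecOn_succ h, ih, map_mul]

theorem tr_self (n : ℕ) (x : S n) : tr S j n n le_rfl x = x := Nat.leRecOn_self _

theorem tr_succ (n : ℕ) (x : S n) : tr S j n (n + 1) (Nat.le_succ n) x = j n x :=
  Nat.leRecOn_succ' _

theorem tr_trans (n m k : ℕ) (h : n ≤ m) (h' : m ≤ k) (x : S n) :
    tr S j m k h' (tr S j n m h x) = tr S j n k (h.trans h') x :=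
  (Nat.leRecOn_trans h h' x).symm

instance trSys : DirectedSystem S (fun n m h => (tr S j n m h : S n → S m)) where
  map_self := fun i x => tr_self S j i x
  map_map := fun _ _ _ _ _ x => tr_trans S j _ _ _ _ _ x

theorem tr_inj (hj : ∀ n, Function.Injective (j n)) (n m : ℕ) (h : n ≤ m) :
    Function.Injective (tr S j n m h) :=
  Nat.leRecOn_injective h _ hj

end

/-- **DLIM** -/
theorem DLIM : S_DLIM := by
  intro S _ j hj
  refine ⟨DirectLimit S (tr S j), inferInstance,
    fun n => ⟨⟨fun x => ⟦⟨n, x⟩⟧, (DirectLimit.one_def n).symm⟩,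
      fun x y => (DirectLimit.mul_def n x y).symm⟩, ?_, ?_, ?_⟩
  · intro n
    exact DirectLimit.mk_injective (tr S j) (fun n m h => tr_inj S j hj n m h) n
  · intro n x
    have h1 := DirectLimit.mk_apply (f := tr S j) n (n + 1) x (Nat.le_succ n)
    rw [tr_succ] at h1
    exact h1
  · intro u
    obtain ⟨n, x, h⟩ := DirectLimit.exists_eq_mk _ u
    exact ⟨n, x, h.symm⟩

end Run7.h160.UP
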